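import Pool.Agent.TwoWell.KFinal

set_option autoImplicit false

namespace Pool.Agent.Results.MP_2a9317_an.UpperBound

/-- For every number `k ≥ 2` of phases one has `n_L(k) ≤ 12`; more precisely there are `k` pairwise
different self-adjoint positive definite phases on `2 × 12` matrices and an element of their
`G`-closure which is not in their lamination closure. -/
theorem result (k : ℕ) (hk : 2 ≤ k) : GClosure.nL k ≤ 12 ∧
    ∃ L : Fin k → GClosure.Tens 12, Function.Injective L ∧ (∀ i, (L i).PosDef) ∧
      ∃ Ls : GClosure.Tens 12, Ls ∈ GClosure.GK L ∧ Ls ∉ GClosure.GLK L :=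
  ⟨GClosure.nL_le k hk, GClosure.k_phase_gap k hk⟩

end Pool.Agent.Results.MP_2a9317_an.UpperBound
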